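import Pool.Agent.H44.V0F.Vcl
import Pool.Agent.H45.EXA.Zlb
import Pool.Agent.H95.T4.Sep

/-!
# The position after a hop at a fixed point: digits

The fields of `RagH` for the letters `tD` (digits of the time behind the window), `F.X (w + M + Q) i`
(position), `bL`, `aL` (the position of the second line as a function of the hidden time).
-/

set_option autoImplicit false

namespace Pool.NS95

open Finset Real
open Pool.Agent.H49.Ent Pool.Agent.H32.Dense Pool.STK Pool.KA Pool.KSAT Pool.K2S Pool.PB Pool.S6C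
open Pool.GEN Pool.V0F Pool.T4A95 Pool.RCD
open Pool.PR46 (P1 P1_pos)
open Pool.CHT (big bas_ev)

section det

variable {m J : ℕ}

/-- The digits of the time from `w` to `w + M`. -/
def tD (F : Fam m J) (w M : ℕ) (ω : F.Ω) : ℤ := (F.T1 (w + M) ω : ℤ) - 2 ^ M * F.T1 w ω

/-- The factor of the hidden time. -/
noncomputable def bL {F : Fam m J} (M Q : ℕ) (i : Fin m) (s : LnT F) (v : ℤ) : ℝ :=
  2 ^ Q * (s.1.2 i - v / 2 ^ (M + Q))

/-- The position of the second line if the hidden time is the beginning of the window. -/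
noncomputable def aL {F : Fam m J} (w M Q : ℕ) (i : Fin m) (s : LnT F) (v : ℤ) (W : ℕ × F.ζ) : ℝ :=
  2 ^ (w + M + Q) * (s.1.1 i + s.2.2 / 2 ^ w * s.1.2 i +
    v / 2 ^ (M + Q) * (W.1 / 2 ^ J - s.2.2 / 2 ^ w))

theorem fl_eq {N : ℕ} {x y : ℝ} (h : ⌊2 ^ N * x⌋ = ⌊2 ^ N * y⌋) : |x - y| ≤ 1 / 2 ^ N := by
  have a1 := Int.floor_le (2 ^ N * x)
  have a2 := Int.lt_floor_add_one (2 ^ N * x)
  have a1' := Int.floor_le (2 ^ N * y)
  have a2' := Int.lt_floor_add_one (2 ^ N * y)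
  rw [← h] at a1' a2'
  have p : (0 : ℝ) < 2 ^ N := by positivity
  have e : x - y = (2 ^ N * x - 2 ^ N * y) / 2 ^ N := by field_simp
  rw [e, abs_div, abs_of_pos p]
  refine div_le_div_of_nonneg_right ?_ p.le
  rw [abs_le]
  constructor <;> linarith

theorem fl_near (n : ℕ) (x : ℝ) : |x - ⌊2 ^ n * x⌋ / 2 ^ n| ≤ 1 / 2 ^ n := by
  have a1 := Int.floor_le (2 ^ n * x)
  have a2 := Int.lt_floor_add_one (2 ^ n * x)
  have p : (0 : ℝ) < 2 ^ n := by positivity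
  have e : x - ⌊2 ^ n * x⌋ / 2 ^ n = (2 ^ n * x - ⌊2 ^ n * x⌋) / 2 ^ n := by field_simp
  rw [e, abs_div, abs_of_pos p]
  refine div_le_div_of_nonneg_right ?_ p.le
  rw [abs_le]
  constructor <;> linarith

theorem tD_eq (F : Fam m J) {w M : ℕ} (h : w + M ≤ J) (ω : F.Ω) :
    0 ≤ tD F w M ω ∧ tD F w M ω < 2 ^ M := by
  have h1 := T1_div F h ω
  unfold tD
  have h2 := Nat.div_add_mod (F.T1 (w + M) ω) (2 ^ M)
  have h3 := Nat.mod_lt (F.T1 (w + M) ω) (show 0 < 2 ^ M by positivity)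
  rw [← h1] at h2
  have h4 : ((2 ^ M * F.T1 w ω + F.T1 (w + M) ω % 2 ^ M : ℕ) : ℤ) = F.T1 (w + M) ω := by
    exact_mod_cast h2
  push_cast at h4
  have h5 : ((F.T1 (w + M) ω % 2 ^ M : ℕ) : ℤ) < 2 ^ M := by exact_mod_cast h3
  have h6 : (0 : ℤ) ≤ ((F.T1 (w + M) ω % 2 ^ M : ℕ) : ℤ) := Int.natCast_nonneg _
  push_cast at h5 h6
  constructor <;> linarith

/-- **(tb)** -/
theorem tD_abs (F : Fam m J) {w M : ℕ} (h : w + M ≤ J) (ω : F.Ω) : |tD F w M ω| ≤ 2 ^ M := by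
  obtain ⟨h1, h2⟩ := tD_eq F h ω
  rw [abs_of_nonneg h1]
  exact h2.le

/-- The time in the window. -/
theorem T1_lt (F : Fam m J) {w : ℕ} (h : w ≤ J) (ω : F.Ω) :
    (F.T1 w ω : ℝ) / 2 ^ w ≤ F.t ω ∧ F.t ω ≤ F.T1 w ω / 2 ^ w + 1 / 2 ^ w := by
  have e1 : (2 : ℝ) ^ J = 2 ^ w * 2 ^ (J - w) := by
    rw [← pow_add]
    congr 1
    omega
  have p1 : (0 : ℝ) < 2 ^ w := by positivity
  have p2 : (0 : ℝ) < 2 ^ (J - w) := by positivity
  have h2 := Nat.div_add_mod (F.T ω) (2 ^ (J - w))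
  have h3 := Nat.mod_lt (F.T ω) (show 0 < 2 ^ (J - w) by positivity)
  have h4 : (2 : ℝ) ^ (J - w) * F.T1 w ω + (F.T ω % 2 ^ (J - w) : ℕ) = F.T ω := by
    unfold Fam.T1
    exact_mod_cast h2
  have h5 : ((F.T ω % 2 ^ (J - w) : ℕ) : ℝ) < 2 ^ (J - w) := by exact_mod_cast h3
  have h6 : (0 : ℝ) ≤ ((F.T ω % 2 ^ (J - w) : ℕ) : ℝ) := Nat.cast_nonneg _
  unfold Fam.t
  constructor
  · rw [div_le_div_iff₀ p1 (by positivity), e1]
    nlinarith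
  · rw [← add_div, div_le_div_iff₀ (by positivity) p1, e1]
    nlinarith

/-- The rest of the time behind the digits `w + M`. -/
theorem t_rest (F : Fam m J) {w M : ℕ} (h : w + M ≤ J) (ω : F.Ω) :
    |2 ^ (w + M) * (F.t ω - F.T1 w ω / 2 ^ w) - tD F w M ω| ≤ 1 := by
  obtain ⟨h1, h2⟩ := T1_lt F h ω
  have p1 : (0 : ℝ) < 2 ^ w := by positivity
  have p2 : (0 : ℝ) < 2 ^ (w + M) := by positivity
  have e1 : 2 ^ (w + M) * (F.t ω - F.T1 w ω / 2 ^ w) - (tD F w M ω : ℝ) =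
      2 ^ (w + M) * F.t ω - F.T1 (w + M) ω := by
    unfold tD
    push_cast
    rw [mul_sub]
    have e2 : (2 : ℝ) ^ (w + M) * (F.T1 w ω / 2 ^ w) = 2 ^ M * F.T1 w ω := by
      rw [pow_add]
      field_simp
    rw [e2]
    ring
  rw [e1, abs_le]
  rw [div_le_iff₀ p2] at h1
  have h3 : F.t ω * 2 ^ (w + M) ≤ F.T1 (w + M) ω + 1 := by
    have h4 := mul_le_mul_of_nonneg_right h2 p2.le
    rw [← add_div, div_mul_cancel₀ _ p2.ne'] at h4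
    exact h4
  constructor <;> linarith

/-- **(pos)** The position of the second line. -/
theorem pos_hop (F : Fam m J) (i : Fin m) {w M Q n N : ℕ} (hJ : w + M ≤ J) (hn : n ≤ Q)
    (hN : w + M + Q ≤ N) {ω₁ ω₂ ω₃ : F.Ω} (hW : F.W ω₁ = F.W ω₂) (hD : F.D n ω₁ i = F.D n ω₂ i)
    (hX : F.X N ω₁ i = F.X N ω₂ i) (hL : slam F w ω₂ = slam F w ω₃) :
    |(F.X (w + M + Q) ω₃ i : ℝ) - (aL w M Q i (slam F w ω₁) (F.D (M + Q) ω₂ i) (F.W ω₃) +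
      bL M Q i (slam F w ω₁) (F.D (M + Q) ω₂ i) * tD F w M ω₁)| ≤ 2 ^ (Q - n) + 6 := by
  have hT : F.T ω₁ = F.T ω₂ := (Prod.ext_iff.mp hW).1
  have hl : F.l ω₂ = F.l ω₃ := (Prod.ext_iff.mp hL).1
  have hT1 : F.T1 w ω₂ = F.T1 w ω₃ := (Prod.ext_iff.mp (Prod.ext_iff.mp hL).2).2
  have hu : F.u ω₂ i = F.u ω₃ i := congrFun (Prod.ext_iff.mp hl).1 i
  have hd : F.d ω₂ i = F.d ω₃ i := congrFun (Prod.ext_iff.mp hl).2 i
  have ht : F.t ω₁ = F.t ω₂ := by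
    unfold Fam.t
    rw [hT]
  have hT11 : F.T1 w ω₁ = F.T1 w ω₂ := by
    unfold Fam.T1
    rw [hT]
  obtain ⟨t₁, ht₁⟩ : ∃ x, x = F.t ω₁ := ⟨_, rfl⟩
  obtain ⟨t₃, ht₃⟩ : ∃ x, x = F.t ω₃ := ⟨_, rfl⟩
  obtain ⟨T0, hT0⟩ : ∃ x : ℝ, x = F.T1 w ω₁ / 2 ^ w := ⟨_, rfl⟩
  obtain ⟨d₁, hd₁⟩ : ∃ x, x = F.d ω₁ i := ⟨_, rfl⟩
  obtain ⟨d₂, hd₂⟩ : ∃ x, x = F.d ω₂ i := ⟨_, rfl⟩
  obtain ⟨v, hv⟩ : ∃ x : ℝ, x = F.D (M + Q) ω₂ i / 2 ^ (M + Q) := ⟨_, rfl⟩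
  obtain ⟨u₁, hu₁⟩ : ∃ x, x = F.u ω₁ i := ⟨_, rfl⟩
  obtain ⟨u₂, hu₂⟩ : ∃ x, x = F.u ω₂ i := ⟨_, rfl⟩
  obtain ⟨td, htd⟩ : ∃ x : ℝ, x = tD F w M ω₁ := ⟨_, rfl⟩
  have pP : (0 : ℝ) < 2 ^ (w + M + Q) := by positivity
  have pw : (0 : ℝ) < 2 ^ w := by positivity
  have pQ : (0 : ℝ) < 2 ^ Q := by positivity
  have pMQ : (0 : ℝ) < 2 ^ (M + Q) := by positivity
  have eP : (2 : ℝ) ^ (w + M + Q) = 2 ^ w * 2 ^ (M + Q) := by
    rw [← pow_add]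
    congr 1
    omega
  have eP' : (2 : ℝ) ^ (w + M + Q) = 2 ^ (w + M) * 2 ^ Q := by rw [pow_add]
  -- the inequalities
  have h1 : |(F.X (w + M + Q) ω₃ i : ℝ) - 2 ^ (w + M + Q) * (u₂ + t₃ * d₂)| ≤ 1 := by
    have e1 : F.x ω₃ i = u₂ + t₃ * d₂ := by
      unfold Fam.x
      rw [hu₂, hd₂, hu, hd, ht₃]
    have e2 : F.X (w + M + Q) ω₃ i = ⌊2 ^ (w + M + Q) * F.x ω₃ i⌋ := rfl
    rw [e2, ← e1, abs_sub_comm, abs_le]
    have a1 := Int.floor_le (2 ^ (w + M + Q) * F.x ω₃ i)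
    have a2 := Int.lt_floor_add_one (2 ^ (w + M + Q) * F.x ω₃ i)
    constructor <;> linarith
  have h2 : |2 ^ (w + M + Q) * (u₂ + t₁ * d₂) - 2 ^ (w + M + Q) * (u₁ + t₁ * d₁)| ≤ 1 := by
    have e1 : F.x ω₂ i = u₂ + t₁ * d₂ := by
      unfold Fam.x
      rw [hu₂, hd₂, ht₁, ht]
    have e2 : F.x ω₁ i = u₁ + t₁ * d₁ := by
      unfold Fam.x
      rw [hu₁, hd₁, ht₁]
    have a3 : |F.x ω₂ i - F.x ω₁ i| ≤ 1 / 2 ^ N := fl_eq hX.symm
    rw [← e1, ← e2, ← mul_sub, abs_mul, abs_of_pos pP]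
    have a4 : (2 : ℝ) ^ (w + M + Q) ≤ 2 ^ N := pow_le_pow_right₀ (by norm_num) hN
    calc 2 ^ (w + M + Q) * |F.x ω₂ i - F.x ω₁ i| ≤ 2 ^ N * (1 / 2 ^ N) :=
          mul_le_mul a4 a3 (abs_nonneg _) (by positivity)
      _ = 1 := by field_simp
  have h3 : |d₂ - v| ≤ 1 / 2 ^ (M + Q) := by
    rw [hv, hd₂]
    exact fl_near (M + Q) (F.d ω₂ i)
  have hJw : w ≤ J := by omega
  have h4 : |t₃ - T0| ≤ 1 / 2 ^ w := by
    obtain ⟨a1, a2⟩ := T1_lt F hJw ω₃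
    rw [← hT1, ← hT11] at a1 a2
    rw [← hT0, ← ht₃] at a1 a2
    rw [abs_le]
    constructor
    · have : 0 < 1 / (2 : ℝ) ^ w := by positivity
      linarith
    · linarith
  have h5 : |t₁ - T0| ≤ 1 / 2 ^ w := by
    obtain ⟨a1, a2⟩ := T1_lt F hJw ω₁
    rw [← hT0, ← ht₁] at a1 a2
    rw [abs_le]
    constructor
    · have : 0 < 1 / (2 : ℝ) ^ w := by positivity
      linarith
    · linarith
  have h6 : |2 ^ (w + M) * (t₁ - T0) - td| ≤ 1 := by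
    rw [ht₁, hT0, htd]
    exact t_rest F hJ ω₁
  have h7 : |d₁ - d₂| ≤ 1 / 2 ^ n := by
    rw [hd₁, hd₂]
    exact fl_eq hD
  have h8 : 2 ^ Q * |d₁ - v| ≤ 2 ^ (Q - n) + 1 := by
    have a1 : |d₁ - v| ≤ 1 / 2 ^ n + 1 / 2 ^ (M + Q) := by
      have e1 : d₁ - v = (d₁ - d₂) + (d₂ - v) := by ring
      rw [e1]
      exact (abs_add_le _ _).trans (add_le_add h7 h3)
    have a2 : (2 : ℝ) ^ Q * (1 / 2 ^ n) = 2 ^ (Q - n) := by
      have e1 : (2 : ℝ) ^ Q = 2 ^ (Q - n) * 2 ^ n := by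
        rw [← pow_add]
        congr 1
        omega
      rw [e1]
      field_simp
    have a3 : (2 : ℝ) ^ Q * (1 / 2 ^ (M + Q)) ≤ 1 := by
      rw [mul_one_div, div_le_one pMQ]
      exact pow_le_pow_right₀ (by norm_num) (by omega)
    calc 2 ^ Q * |d₁ - v| ≤ 2 ^ Q * (1 / 2 ^ n + 1 / 2 ^ (M + Q)) :=
          mul_le_mul_of_nonneg_left a1 pQ.le
      _ ≤ 2 ^ (Q - n) + 1 := by rw [mul_add, a2]; linarith
  -- the letters
  have ea : aL w M Q i (slam F w ω₁) (F.D (M + Q) ω₂ i) (F.W ω₃) =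
      2 ^ (w + M + Q) * (u₁ + T0 * d₁ + v * (t₃ - T0)) := by
    rw [hu₁, hT0, hd₁, hv, ht₃]
    rfl
  have eb : bL M Q i (slam F w ω₁) (F.D (M + Q) ω₂ i) = 2 ^ Q * (d₁ - v) := by
    rw [hd₁, hv]
    rfl
  rw [ea, eb, ← htd]
  have key : (F.X (w + M + Q) ω₃ i : ℝ) - (2 ^ (w + M + Q) * (u₁ + T0 * d₁ + v * (t₃ - T0)) +
      2 ^ Q * (d₁ - v) * td) =
      ((F.X (w + M + Q) ω₃ i : ℝ) - 2 ^ (w + M + Q) * (u₂ + t₃ * d₂)) +
      (2 ^ (w + M + Q) * (u₂ + t₁ * d₂) - 2 ^ (w + M + Q) * (u₁ + t₁ * d₁)) +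
      2 ^ (w + M + Q) * ((t₃ - T0) * (d₂ - v)) - 2 ^ (w + M + Q) * ((t₁ - T0) * (d₂ - v)) +
      2 ^ Q * (d₁ - v) * (2 ^ (w + M) * (t₁ - T0) - td) := by
    rw [eP']
    ring
  rw [key]
  have b1 : |2 ^ (w + M + Q) * ((t₃ - T0) * (d₂ - v))| ≤ 1 := by
    rw [abs_mul, abs_mul, abs_of_pos pP, eP]
    calc 2 ^ w * 2 ^ (M + Q) * (|t₃ - T0| * |d₂ - v|) ≤
          2 ^ w * 2 ^ (M + Q) * (1 / 2 ^ w * (1 / 2 ^ (M + Q))) :=
          mul_le_mul_of_nonneg_left (mul_le_mul h4 h3 (abs_nonneg _) (by positivity))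
            (by positivity)
      _ = 1 := by field_simp
  have b2 : |2 ^ (w + M + Q) * ((t₁ - T0) * (d₂ - v))| ≤ 1 := by
    rw [abs_mul, abs_mul, abs_of_pos pP, eP]
    calc 2 ^ w * 2 ^ (M + Q) * (|t₁ - T0| * |d₂ - v|) ≤
          2 ^ w * 2 ^ (M + Q) * (1 / 2 ^ w * (1 / 2 ^ (M + Q))) :=
          mul_le_mul_of_nonneg_left (mul_le_mul h5 h3 (abs_nonneg _) (by positivity))
            (by positivity)
      _ = 1 := by field_simp
  have b3 : |2 ^ Q * (d₁ - v) * (2 ^ (w + M) * (t₁ - T0) - td)| ≤ 2 ^ (Q - n) + 1 := by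
    rw [abs_mul, abs_mul, abs_of_pos pQ]
    calc 2 ^ Q * |d₁ - v| * |2 ^ (w + M) * (t₁ - T0) - td| ≤ (2 ^ (Q - n) + 1) * 1 :=
          mul_le_mul h8 h6 (abs_nonneg _) (by positivity)
      _ = 2 ^ (Q - n) + 1 := mul_one _
  have c1 := abs_le.1 h1
  have c2 := abs_le.1 h2
  have c3 := abs_le.1 b1
  have c4 := abs_le.1 b2
  have c5 := abs_le.1 b3
  rw [abs_le]
  constructor <;> linarith [c1.1, c1.2, c2.1, c2.2, c3.1, c3.2, c4.1, c4.2, c5.1, c5.2]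

/-- **(bu)** The factor is bounded. -/
theorem bL_le (F : Fam m J) (i : Fin m) {w M Q n : ℕ} (hn : n ≤ Q) {ω₁ ω₂ : F.Ω}
    (hD : F.D n ω₁ i = F.D n ω₂ i) :
    |bL M Q i (slam F w ω₁) (F.D (M + Q) ω₂ i)| ≤ 2 ^ (Q - n + 1) := by
  obtain ⟨d₁, hd₁⟩ : ∃ x, x = F.d ω₁ i := ⟨_, rfl⟩
  obtain ⟨d₂, hd₂⟩ : ∃ x, x = F.d ω₂ i := ⟨_, rfl⟩
  obtain ⟨v, hv⟩ : ∃ x : ℝ, x = F.D (M + Q) ω₂ i / 2 ^ (M + Q) := ⟨_, rfl⟩
  have pQ : (0 : ℝ) < 2 ^ Q := by positivity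
  have pMQ : (0 : ℝ) < 2 ^ (M + Q) := by positivity
  have h3 : |d₂ - v| ≤ 1 / 2 ^ (M + Q) := by
    rw [hv, hd₂]
    exact fl_near (M + Q) (F.d ω₂ i)
  have h7 : |d₁ - d₂| ≤ 1 / 2 ^ n := by
    rw [hd₁, hd₂]
    exact fl_eq hD
  have eb : bL M Q i (slam F w ω₁) (F.D (M + Q) ω₂ i) = 2 ^ Q * (d₁ - v) := by
    rw [hd₁, hv]
    rfl
  rw [eb, abs_mul, abs_of_pos pQ]
  have a1 : |d₁ - v| ≤ 1 / 2 ^ n + 1 / 2 ^ (M + Q) := by
    have e1 : d₁ - v = (d₁ - d₂) + (d₂ - v) := by ring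
    rw [e1]
    exact (abs_add_le _ _).trans (add_le_add h7 h3)
  have a2 : (2 : ℝ) ^ Q * (1 / 2 ^ n) = 2 ^ (Q - n) := by
    have e1 : (2 : ℝ) ^ Q = 2 ^ (Q - n) * 2 ^ n := by
      rw [← pow_add]
      congr 1
      omega
    rw [e1]
    field_simp
  have a3 : (2 : ℝ) ^ Q * (1 / 2 ^ (M + Q)) ≤ 1 := by
    rw [mul_one_div, div_le_one pMQ]
    exact pow_le_pow_right₀ (by norm_num) (by omega)
  have a4 : (1 : ℝ) ≤ 2 ^ (Q - n) := one_le_pow₀ (by norm_num)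
  calc 2 ^ Q * |d₁ - v| ≤ 2 ^ Q * (1 / 2 ^ n + 1 / 2 ^ (M + Q)) :=
        mul_le_mul_of_nonneg_left a1 pQ.le
    _ ≤ 2 ^ (Q - n) + 1 := by rw [mul_add, a2]; linarith
    _ ≤ 2 ^ (Q - n + 1) := by rw [pow_succ]; linarith

/-- Different digits give a large factor. -/
theorem bL_ge (F : Fam m J) (i : Fin m) {w M Q : ℕ} {ω₁ ω₂ : F.Ω}
    (hD : ¬ |(F.D Q ω₁ i : ℝ) - F.D Q ω₂ i| ≤ (2 : ℕ)) :
    1 ≤ |bL M Q i (slam F w ω₁) (F.D (M + Q) ω₂ i)| := by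
  obtain ⟨d₁, hd₁⟩ : ∃ x, x = F.d ω₁ i := ⟨_, rfl⟩
  obtain ⟨d₂, hd₂⟩ : ∃ x, x = F.d ω₂ i := ⟨_, rfl⟩
  obtain ⟨v, hv⟩ : ∃ x : ℝ, x = F.D (M + Q) ω₂ i / 2 ^ (M + Q) := ⟨_, rfl⟩
  have pQ : (0 : ℝ) < 2 ^ Q := by positivity
  have pMQ : (0 : ℝ) < 2 ^ (M + Q) := by positivity
  have h3 : |d₂ - v| ≤ 1 / 2 ^ (M + Q) := by
    rw [hv, hd₂]
    exact fl_near (M + Q) (F.d ω₂ i)
  have eb : bL M Q i (slam F w ω₁) (F.D (M + Q) ω₂ i) = 2 ^ Q * (d₁ - v) := by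
    rw [hd₁, hv]
    rfl
  rw [not_le] at hD
  push_cast at hD
  have h4 : (3 : ℝ) ≤ |(F.D Q ω₁ i : ℝ) - F.D Q ω₂ i| := by
    have h5 : (((2 : ℤ) : ℤ) : ℝ) < ((|F.D Q ω₁ i - F.D Q ω₂ i| : ℤ) : ℝ) := by
      push_cast
      exact hD
    have h6 : (3 : ℤ) ≤ |F.D Q ω₁ i - F.D Q ω₂ i| := Int.cast_lt.1 h5
    have h7 : ((3 : ℤ) : ℝ) ≤ ((|F.D Q ω₁ i - F.D Q ω₂ i| : ℤ) : ℝ) := Int.cast_le.2 h6
    push_cast at h7
    exact h7
  have h5 : 2 ≤ 2 ^ Q * |d₁ - d₂| := by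
    have e1 : F.D Q ω₁ i = ⌊2 ^ Q * d₁⌋ := by rw [hd₁]; rfl
    have e2 : F.D Q ω₂ i = ⌊2 ^ Q * d₂⌋ := by rw [hd₂]; rfl
    rw [e1, e2] at h4
    have a1 := Int.floor_le (2 ^ Q * d₁)
    have a2 := Int.lt_floor_add_one (2 ^ Q * d₁)
    have a1' := Int.floor_le (2 ^ Q * d₂)
    have a2' := Int.lt_floor_add_one (2 ^ Q * d₂)
    have h6 : 2 ^ Q * |d₁ - d₂| = |2 ^ Q * d₁ - 2 ^ Q * d₂| := by
      rw [← mul_sub, abs_mul, abs_of_pos pQ]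
    rw [h6]
    rcases le_abs.1 h4 with h7 | h7
    · refine le_trans ?_ (le_abs_self _)
      linarith
    · refine le_trans ?_ (neg_le_abs _)
      linarith
  have h6 : (2 : ℝ) ^ Q * |d₂ - v| ≤ 1 := by
    have a3 : (2 : ℝ) ^ Q * (1 / 2 ^ (M + Q)) ≤ 1 := by
      rw [mul_one_div, div_le_one pMQ]
      exact pow_le_pow_right₀ (by norm_num) (by omega)
    exact (mul_le_mul_of_nonneg_left h3 pQ.le).trans a3
  have h7 : |d₁ - d₂| ≤ |d₁ - v| + |d₂ - v| := by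
    have e1 : d₁ - d₂ = (d₁ - v) - (d₂ - v) := by ring
    rw [e1]
    exact abs_sub _ _
  rw [eb, abs_mul, abs_of_pos pQ]
  nlinarith

end det

/-! ### Entropies -/

section law

variable {m J : ℕ}

/-- The digits of the velocity of the coordinate `i`, as a function of the line. -/
noncomputable def vfL {F : Fam m J} (n : ℕ) (i : Fin m) (s : LnT F) : ℤ := ⌊2 ^ n * s.1.2 i⌋

/-- The digits of the velocities, as a function of the line. -/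
noncomputable def vnL {F : Fam m J} (n : ℕ) (s : LnT F) : Fin m → ℤ := fun i => ⌊2 ^ n * s.1.2 i⌋

/-- **(full)** The digits of the time are full given the line. -/
theorem full_law (F : Fam m J) {w M : ℕ} (h : w + M ≤ J) {e : ℝ} (he : F.Tm e) :
    M * Real.log 2 - e ≤ CH F.p (tD F w M) (slam F w) := by
  refine (time_digits F h he).trans (CH_mono_left F.isLaw.nonneg ?_)
  intro ω ω' _ _ e
  have e1 := Prod.ext_iff.mp e
  have e2 : tD F w M ω = tD F w M ω' := e1.1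
  have e3 : F.T1 w ω = F.T1 w ω' := (Prod.ext_iff.mp (Prod.ext_iff.mp e1.2).2).2
  show (F.T1 (w + M) ω : ℤ) = F.T1 (w + M) ω'
  unfold tD at e2
  rw [e3] at e2
  linarith

/-- **(time)** The exact time given the line is as free as given the window. -/
theorem time_law (F : Fam m J) {w : ℕ} (h : w ≤ J) {e : ℝ} (he : F.Tm e) {R' : Type} (R : LnT F → R')
    (hR : ∀ ω ω', 0 < F.p ω → 0 < F.p ω' → R (slam F w ω) = R (slam F w ω') →
      F.Z ω = F.Z ω' ∧ F.T1 w ω = F.T1 w ω') :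
    CH F.p F.W (fun ω => R (slam F w ω)) - e ≤ CH F.p F.W (slam F w) := by
  classical
  have h0 := F.isLaw.nonneg
  obtain ⟨K, rfl⟩ := Nat.exists_eq_add_of_le h
  have h1 : K * Real.log 2 - e ≤ CH F.p F.W (slam F w) := by
    refine (time_digits F le_rfl he).trans (CH_mono_left h0 ?_)
    intro ω ω' _ _ e
    have e1 : F.T ω = F.T ω' := (Prod.ext_iff.mp (Prod.ext_iff.mp e).1).1
    show (F.T1 (w + K) ω : ℤ) = F.T1 (w + K) ω'
    unfold Fam.T1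
    rw [e1]
  have h2 : CH F.p F.W (fun ω => R (slam F w ω)) ≤ CH F.p F.W (fun ω => (F.Z ω, F.T1 w ω)) :=
    CH_mono_cond h0 fun ω ω' a b e => by
      obtain ⟨e1, e2⟩ := hR ω ω' a b e
      show (F.Z ω, F.T1 w ω) = (F.Z ω', F.T1 w ω')
      rw [e1, e2]
  have h3 : CH F.p F.W (fun ω => (F.Z ω, F.T1 w ω)) ≤ K * Real.log 2 := by
    refine (CH_le_card h0 F.isLaw.sum_one F.W (fun ω => (F.Z ω, F.T1 w ω))
      (fun v => (Finset.Ico (v.2 * 2 ^ K) ((v.2 + 1) * 2 ^ K)).image fun T => (T, v.1)) ?_).trans ?_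
    · intro ω _
      rw [Finset.mem_image]
      refine ⟨F.T ω, ?_, rfl⟩
      have e1 : F.T1 w ω = F.T ω / 2 ^ K := by
        unfold Fam.T1
        congr 2
        omega
      rw [Finset.mem_Ico]
      show F.T1 w ω * 2 ^ K ≤ F.T ω ∧ F.T ω < (F.T1 w ω + 1) * 2 ^ K
      rw [e1]
      refine ⟨Nat.div_mul_le_self _ _, ?_⟩
      rw [← Nat.div_lt_iff_lt_mul (by positivity)]
      exact Nat.lt_succ_self _
    · have h4 : ∀ ω, 0 < F.p ω → Real.log ((((Finset.Ico ((F.Z ω, F.T1 w ω).2 * 2 ^ K)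
          (((F.Z ω, F.T1 w ω).2 + 1) * 2 ^ K)).image fun T => (T, (F.Z ω, F.T1 w ω).1)).card :
          ℕ) : ℝ) ≤ K * Real.log 2 := by
        intro ω _
        have e1 : (K : ℝ) * Real.log 2 = Real.log ((2 ^ K : ℕ) : ℝ) := by
          push_cast
          rw [Real.log_pow]
        rw [e1]
        have e2 : ((Finset.Ico ((F.Z ω, F.T1 w ω).2 * 2 ^ K)
          (((F.Z ω, F.T1 w ω).2 + 1) * 2 ^ K)).image fun T => (T, (F.Z ω, F.T1 w ω).1)).card ≤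
            2 ^ K := by
          refine Finset.card_image_le.trans (le_of_eq ?_)
          rw [Nat.card_Ico, add_mul, one_mul, Nat.add_sub_cancel_left]
        rcases Nat.eq_zero_or_pos ((Finset.Ico ((F.Z ω, F.T1 w ω).2 * 2 ^ K)
          (((F.Z ω, F.T1 w ω).2 + 1) * 2 ^ K)).image fun T => (T, (F.Z ω, F.T1 w ω).1)).card with
          h5 | h5
        · rw [h5, Nat.cast_zero, Real.log_zero]
          exact Real.log_nonneg (by exact_mod_cast Nat.one_le_two_pow)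
        · exact Real.log_le_log (by exact_mod_cast h5) (by exact_mod_cast e2)
      refine (Ex_mono h0 h4).trans ?_
      rw [Ex_const F.isLaw.sum_one]
  linarith

/-! ### The record -/

/-- The record is a function of the line. -/
theorem cR_line (F : Fam m J) (A : F.Ω → Prop) (w : ℝ) :
    ∃ R : LnT F → {D : F.Ω → Prop // Cl2 (ptr F J) (vg w J F) A D} → Prop,
      ∀ ω, A ω → cR F A w ω = R (slam F ⌊w * J⌋₊ ω) := by
  choose φ hφ using fun D : {D : F.Ω → Prop // Cl2 (ptr F J) (vg w J F) A D} => D.2.2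
  exact ⟨fun x D => φ D x, fun ω hω => funext fun D => hφ D ω hω⟩

/-- The record is a function of the exact point. -/
theorem cR_pt (F : Fam m J) (A : F.Ω → Prop) (w : ℝ) {ω ω' : F.Ω} (hω : A ω) (hω' : A ω')
    (h : ptr F J ω = ptr F J ω') : cR F A w ω = cR F A w ω' := by
  choose φ hφ using fun D : {D : F.Ω → Prop // Cl2 (ptr F J) (vg w J F) A D} => D.2.1
  have h1 : ∀ ω, A ω → cR F A w ω = (fun D => φ D (ptr F J ω)) :=
    fun ω hω => funext fun D => hφ D ω hω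
  rw [h1 ω hω, h1 ω' hω', h]

/-- Closed functions are functions of the record. -/
theorem cR_cl {V : Type} (F : Fam m J) (A : F.Ω → Prop) (w : ℝ) {z : F.Ω → V}
    (hz : Cl2 (ptr F J) (vg w J F) A z) {ω ω' : F.Ω} (h : cR F A w ω = cR F A w ω') :
    z ω = z ω' := by
  have h1 := congrFun h ⟨fun ν => z ν = z ω, hz.comp fun v => v = z ω⟩
  have h2 : (z ω = z ω) = (z ω' = z ω) := h1
  exact (h2.mp rfl).symm

/-- The record knows the window and the side information. -/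
theorem cR_zt (F : Fam m J) (A : F.Ω → Prop) (w : ℝ) {ω ω' : F.Ω}
    (h : cR F A w ω = cR F A w ω') : F.Z ω = F.Z ω' ∧ F.T1 ⌊w * J⌋₊ ω = F.T1 ⌊w * J⌋₊ ω' := by
  have h1 := cR_cl F A w (z := fun ω => (F.Z ω, F.T1 ⌊w * J⌋₊ ω))
    ⟨⟨fun y => (y.2.2, y.2.1 / 2 ^ (J - ⌊w * J⌋₊)), fun ω _ => rfl⟩,
      ⟨fun s => (s.2.1, s.2.2), fun ω _ => rfl⟩⟩ h
  exact ⟨(Prod.ext_iff.mp h1).1, (Prod.ext_iff.mp h1).2⟩

end law

/-! ### Classes -/

section cls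

variable {m : ℕ}

/-- **(full), (time)** on large events. -/
theorem time_cls {S : PCl m} (hT : ∃ C₀, TmC S C₀) {e : ℝ} (he : 0 < e) :
    Bas S (fun J F A => 0 < Pe F.p A ∧
      (∀ w M : ℕ, w + M ≤ J → M * Real.log 2 - e * J ≤
        CH (Pool.Agent.H49.Ent.cond F.p A True) (tD F w M) (slam F w)) ∧
      ∀ w : ℕ, w ≤ J → ∀ (R' : Type) (R : LnT F → R'),
      (∀ ω ω', 0 < Pool.Agent.H49.Ent.cond F.p A True ω → 0 < Pool.Agent.H49.Ent.cond F.p A True ω' →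
        R (slam F w ω) = R (slam F w ω') → F.Z ω = F.Z ω' ∧ F.T1 w ω = F.T1 w ω') →
      CH (Pool.Agent.H49.Ent.cond F.p A True) F.W (fun ω => R (slam F w ω)) - e * J ≤
        CH (Pool.Agent.H49.Ent.cond F.p A True) F.W (slam F w)) := by
  obtain ⟨C₀, hC⟩ := hT
  refine ⟨e / (|C₀| + 1), by positivity, 0, fun J _ F A hA => ?_⟩
  obtain ⟨h1, h2⟩ := hC _ J F A (by positivity) hA
  have h3 := isLaw_cond F.isLaw h1
  have h4 := h2 h3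
  have h5 : C₀ * (e / (|C₀| + 1)) * J ≤ e * J := by
    refine mul_le_mul_of_nonneg_right ?_ (Nat.cast_nonneg J)
    have h6 : C₀ * (e / (|C₀| + 1)) ≤ |C₀| * (e / (|C₀| + 1)) :=
      mul_le_mul_of_nonneg_right (le_abs_self _) (by positivity)
    have h7 : |C₀| * (e / (|C₀| + 1)) ≤ e := by
      rw [← mul_div_assoc, div_le_iff₀ (by positivity)]
      nlinarith [abs_nonneg C₀]
    linarith
  refine ⟨h1, fun w M hwM => ?_, fun w hw R' R hR => ?_⟩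
  · have h6 := full_law (F.res A True h3) hwM h4
    have e1 : CH (Pool.Agent.H49.Ent.cond F.p A True) (tD F w M) (slam F w) =
      CH (F.res A True h3).p (tD (F.res A True h3) w M) (slam (F.res A True h3) w) := rfl
    rw [e1]
    linarith
  · have h6 := time_law (F.res A True h3) hw h4 R hR
    have e1 : CH (Pool.Agent.H49.Ent.cond F.p A True) F.W (slam F w) =
      CH (F.res A True h3).p (F.res A True h3).W (slam (F.res A True h3) w) := rfl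
    have e2 : CH (Pool.Agent.H49.Ent.cond F.p A True) F.W (fun ω => R (slam F w ω)) =
      CH (F.res A True h3).p (F.res A True h3).W (fun ω => R (slam (F.res A True h3) w ω)) := rfl
    rw [e1, e2]
    linarith

/-- **(sep)** for the factor of the hidden time. -/
theorem sep_cls {S : PCl m}
    (hpos : ∀ (τ : ℝ) (J : ℕ) (F : Fam m J) (A : F.Ω → Prop), S.St τ J F A → 0 < Pe F.p A)
    {i : Fin m} {a P Q : ℝ} (hA : ActI S i a P Q) (ha : 0 < a) (hPQ : P < Q) {δ : ℝ} (hδ : 0 < δ) :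
    Bas S (fun J F A => ∀ (w M : ℕ) (Γ : Type) (G : F.Ω → Γ),
      (∀ ω ω', 0 < Pool.Agent.H49.Ent.cond F.p A True ω →
        0 < Pool.Agent.H49.Ent.cond F.p A True ω' → F.D ⌊P * J⌋₊ ω = F.D ⌊P * J⌋₊ ω' →
        F.X J ω = F.X J ω' → F.W ω = F.W ω' → G ω = G ω') →
      Pe (P1 (Pool.Agent.H49.Ent.cond F.p A True) G)
        (fun v => ¬ 1 ≤ |bL M ⌊Q * J⌋₊ i (slam F w v.1)
          (vfL (M + ⌊Q * J⌋₊) i (slam F w v.2))|) ≤ δ) := by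
  have hp : Bas S (fun _ F A => 0 < Pe F.p A) := ⟨1, one_pos, 0, fun J _ F A hA => hpos 1 J F A hA⟩
  refine Bas.mono 0 ((hA.sep hpos ha hPQ 2 hδ).and hp) ?_
  rintro J _ F A ⟨h1, h2⟩ w M Γ G hG
  refine le_trans ?_ (h1 Γ G hG)
  have hq := isLaw_cond F.isLaw h2
  refine Pool.K2S.Pe_mono (Pool.PR46.P1_law hq G) fun v h3 => ?_
  by_contra h4
  exact h3 (bL_ge F i (w := w) (M := M) h4)

end cls

end Pool.NS95
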