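import Pool.Agent.H36.T4.Rag
import Pool.Agent.H95.NS.Pos

/-!
# The hypotheses of the ratio lemma with a hidden time for one family

`free_law`: far digits of the velocity which are free between two records are free given the exact
time and the near digits. `rag_mk`: `RagH` for the letters of `H95/NS/Pos`.
-/

set_option autoImplicit false

namespace Pool.NS95

open Finset Real
open Pool.Agent.H49.Ent Pool.Agent.H32.Dense Pool.STK Pool.KA Pool.KSAT Pool.K2S Pool.PB Pool.S6C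
open Pool.GEN Pool.V0F Pool.T4A95 Pool.RCD Pool.T4M
open Pool.PR46 (P1 P1_pos)

section law

variable {Ω Λ Z₁ Z₂ 𝒲 V₁ V₂ X₁ : Type} [Fintype Ω]

/-- **Free far digits.** -/
theorem free_law {p : Ω → ℝ} (h0 : ∀ ω, 0 ≤ p ω) {L : Ω → Λ} {z : Ω → Z₁} {z' : Ω → Z₂}
    {W : Ω → 𝒲} {vf : Ω → V₁} {vn : Ω → V₂} {x : Ω → X₁} {e₁ e₂ e₃ e₄ : ℝ}
    (hz : Det p L z) (hvf : Det p L vf) (hvn : Det p vf vn)
    (time : CH p W z - e₁ ≤ CH p W L)
    (free : CH p vf (fun ω => (z ω, W ω)) ≤ CH p vf (fun ω => (z' ω, W ω)) + e₂)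
    (hzz : CH p z z' ≤ e₃) (hx : CH p x (fun ω => (z' ω, W ω)) ≤ e₄) :
    CH p vf (fun ω => (vn ω, z ω)) - (e₁ + e₂ + e₃ + e₄) ≤
      CH p vf (fun ω => (z' ω, (W ω, (vn ω, x ω)))) := by
  -- the time is independent of the line
  have s1 := ch_exch h0 vf W (fun ω => (vn ω, z ω))
  have s2 : CH p W (fun ω => (vn ω, z ω)) ≤ CH p W z :=
    CH_mono_cond h0 fun ω ω' _ _ h => (Prod.ext_iff.mp h).2
  have s3 : CH p W L ≤ CH p W (fun ω => (vf ω, (vn ω, z ω))) :=
    CH_mono_cond h0 fun ω ω' a b h => by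
      show (vf ω, (vn ω, z ω)) = (vf ω', (vn ω', z ω'))
      have e1 := hvf ω ω' a b h
      rw [e1, hvn ω ω' a b e1, hz ω ω' a b h]
  -- the near digits
  have s4 := ch_exch h0 vf vn (fun ω => (z ω, W ω))
  have s5 := ch_exch h0 vf vn (fun ω => (z' ω, W ω))
  have s6 : CH p vn (fun ω => (vf ω, (z ω, W ω))) = 0 :=
    CH_eq_zero h0 fun ω ω' a b h => hvn ω ω' a b (Prod.ext_iff.mp h).1
  have s7 : CH p vn (fun ω => (vf ω, (z' ω, W ω))) = 0 :=
    CH_eq_zero h0 fun ω ω' a b h => hvn ω ω' a b (Prod.ext_iff.mp h).1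
  have s8 := CH_le_add h0 vn z (fun ω => (z' ω, W ω))
  have s9 : CH p z (fun ω => (z' ω, W ω)) ≤ CH p z z' :=
    CH_mono_cond h0 fun ω ω' _ _ h => (Prod.ext_iff.mp h).1
  have s10 : CH p vn (fun ω => (z ω, (z' ω, W ω))) ≤ CH p vn (fun ω => (z ω, W ω)) :=
    CH_mono_cond h0 fun ω ω' _ _ h => by
      simp only [Prod.mk.injEq] at h ⊢
      exact ⟨h.1, h.2.2⟩
  have s11 : CH p vf (fun ω => (W ω, (vn ω, z ω))) = CH p vf (fun ω => (vn ω, (z ω, W ω))) :=
    CH_congr h0 (fun _ _ _ _ h => (Prod.ext_iff.mp h).1) (fun _ _ _ _ h => (Prod.ext_iff.mp h).1)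
      (fun ω ω' _ _ h => by
        simp only [Prod.mk.injEq] at h ⊢
        exact ⟨h.2.1, h.2.2, h.1⟩)
      (fun ω ω' _ _ h => by
        simp only [Prod.mk.injEq] at h ⊢
        exact ⟨h.2.2, h.1, h.2.1⟩)
  -- the position
  have s12 := ch_exch h0 vf x (fun ω => (vn ω, (z' ω, W ω)))
  have s13 := CH_nonneg h0 x (fun ω => (vf ω, (vn ω, (z' ω, W ω))))
  have s14 : CH p x (fun ω => (vn ω, (z' ω, W ω))) ≤ CH p x (fun ω => (z' ω, W ω)) :=
    CH_mono_cond h0 fun ω ω' _ _ h => (Prod.ext_iff.mp h).2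
  have s15 : CH p vf (fun ω => (x ω, (vn ω, (z' ω, W ω)))) =
      CH p vf (fun ω => (z' ω, (W ω, (vn ω, x ω)))) :=
    CH_congr h0 (fun _ _ _ _ h => (Prod.ext_iff.mp h).1) (fun _ _ _ _ h => (Prod.ext_iff.mp h).1)
      (fun ω ω' _ _ h => by
        simp only [Prod.mk.injEq] at h ⊢
        exact ⟨h.2.2.1, h.2.2.2, h.2.1, h.1⟩)
      (fun ω ω' _ _ h => by
        simp only [Prod.mk.injEq] at h ⊢
        exact ⟨h.2.2.2, h.2.2.1, h.1, h.2.1⟩)
  linarith

end law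

section fam

variable {m J : ℕ}

/-- **`RagH` for one family.** `z`, `z'`: the records of the windows `w` and `x'`; `N`: the digits of
the position of the coordinate `i` in the deep record; `n ≤ Q`: the near digits of the velocity and
the digits which separate. -/
theorem rag_mk {F : Fam m J} {A : F.Ω → Prop} (hA : 0 < Pe F.p A) {i : Fin m} {w M Q n N r K n₀ : ℕ}
    (hJ : w + M ≤ J) (hn : n ≤ Q) (hN : w + M + Q ≤ N) (hr : Q - n + 1 ≤ r) (hK : 2 ^ r + 6 ≤ K)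
    {R' Z₂ : Type} {R : LnT F → R'} {z' : F.Ω → Z₂} {D : LnT F → Fin n₀ → ℤ} {e e₁ e₂ e₃ e₄ δ : ℝ}
    (hRz : ∀ ω ω', A ω → A ω' → z' ω = z' ω' → R (slam F w ω) = R (slam F w ω'))
    (GD : ∀ ω ω', A ω → A ω' → z' ω = z' ω' → F.W ω = F.W ω' → F.D n ω i = F.D n ω' i →
      F.X N ω i = F.X N ω' i → ∀ l, |(D (slam F w ω) l : ℝ) - D (slam F w ω') l| ≤ K)
    (few : CH (Pool.Agent.H49.Ent.cond F.p A True) (fun ω => D (slam F w ω))
      (fun ω => (F.D (M + Q) ω i, (F.X (w + M + Q) ω i, (R (slam F w ω), F.W ω)))) ≤ e)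
    (full : M * Real.log 2 - e ≤ CH (Pool.Agent.H49.Ent.cond F.p A True) (tD F w M) (slam F w))
    (time : CH (Pool.Agent.H49.Ent.cond F.p A True) F.W (fun ω => R (slam F w ω)) - e₁ ≤
      CH (Pool.Agent.H49.Ent.cond F.p A True) F.W (slam F w))
    (free : CH (Pool.Agent.H49.Ent.cond F.p A True) (fun ω => F.D (M + Q) ω i)
        (fun ω => (R (slam F w ω), F.W ω)) ≤
      CH (Pool.Agent.H49.Ent.cond F.p A True) (fun ω => F.D (M + Q) ω i)
        (fun ω => (z' ω, F.W ω)) + e₂)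
    (hzz : CH (Pool.Agent.H49.Ent.cond F.p A True) (fun ω => R (slam F w ω)) z' ≤ e₃)
    (hx : CH (Pool.Agent.H49.Ent.cond F.p A True) (fun ω => F.X N ω i)
      (fun ω => (z' ω, F.W ω)) ≤ e₄) (he₁ : e₁ ≤ e) (he : e₁ + e₂ + e₃ + e₄ ≤ e)
    (sep : Pe (P1 (Pool.Agent.H49.Ent.cond F.p A True)
      (fun ω => (z' ω, (F.W ω, (F.D n ω i, F.X N ω i)))))
      (fun v => ¬ 1 ≤ |bL M Q i (slam F w v.1) (vfL (M + Q) i (slam F w v.2))|) ≤ δ) :
    RagH (Pool.Agent.H49.Ent.cond F.p A True) (slam F w)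
      (fun ω => (z' ω, (F.W ω, (F.D n ω i, F.X N ω i)))) D R F.W (tD F w M)
      (fun ω => F.X (w + M + Q) ω i) (vfL n i) (vfL (M + Q) i)
      (fun s v W => aL w M Q i s v W) (fun s v => bL M Q i s v) M K r e δ where
  law := isLaw_cond F.isLaw hA
  GR := by
    intro ω ω' a b h
    obtain ⟨-, a⟩ := cond_supp F.isLaw.nonneg a
    obtain ⟨-, b⟩ := cond_supp F.isLaw.nonneg b
    simp only [Prod.mk.injEq] at h
    obtain ⟨h1, h2, h3, h4⟩ := h
    refine ⟨hRz ω ω' a b h1, h2, h3, ?_⟩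
    obtain ⟨k, rfl⟩ := Nat.exists_eq_add_of_le hN
    have e1 : ∀ ω, F.X (w + M + Q) ω i = F.X (w + M + Q + k) ω i / 2 ^ k := by
      intro ω
      show ⌊2 ^ (w + M + Q) * F.x ω i⌋ = ⌊2 ^ (w + M + Q + k) * F.x ω i⌋ / 2 ^ k
      have e2 := Int.floor_div_natCast (2 ^ (w + M + Q + k) * F.x ω i) (2 ^ k)
      push_cast at e2
      rw [← e2, pow_add _ (w + M + Q) k]
      congr 1
      field_simp
    rw [e1, e1, h4]
  GD := by
    intro ω ω' a b h l
    obtain ⟨-, a⟩ := cond_supp F.isLaw.nonneg a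
    obtain ⟨-, b⟩ := cond_supp F.isLaw.nonneg b
    simp only [Prod.mk.injEq] at h
    obtain ⟨h1, h2, h3, h4⟩ := h
    exact GD ω ω' a b h1 h2 h3 h4 l
  tb := fun ω _ => tD_abs F hJ ω
  few := few
  full := full
  time := by linarith
  free := by
    have hq := isLaw_cond F.isLaw hA
    have h1 := free_law (p := Pool.Agent.H49.Ent.cond F.p A True) hq.nonneg (L := slam F w)
      (z := fun ω => R (slam F w ω)) (z' := z') (W := F.W) (vf := fun ω => F.D (M + Q) ω i)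
      (vn := fun ω => F.D n ω i) (x := fun ω => F.X N ω i)
      (fun ω ω' _ _ h => congrArg R h)
      (fun ω ω' _ _ h => congrArg (vfL (M + Q) i) h)
      (fun ω ω' _ _ h => ?_) time free hzz hx
    · have h2 : CH (Pool.Agent.H49.Ent.cond F.p A True) (fun ω => vfL (M + Q) i (slam F w ω))
          (fun ω => (vfL n i (slam F w ω), R (slam F w ω))) =
          CH (Pool.Agent.H49.Ent.cond F.p A True) (fun ω => F.D (M + Q) ω i)
          (fun ω => (F.D n ω i, R (slam F w ω))) := rfl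
      have h3 : CH (Pool.Agent.H49.Ent.cond F.p A True) (fun ω => vfL (M + Q) i (slam F w ω))
          (fun ω => (z' ω, (F.W ω, (F.D n ω i, F.X N ω i)))) =
          CH (Pool.Agent.H49.Ent.cond F.p A True) (fun ω => F.D (M + Q) ω i)
          (fun ω => (z' ω, (F.W ω, (F.D n ω i, F.X N ω i)))) := rfl
      rw [h2, h3]
      linarith
    · have h' : F.D (M + Q) ω i = F.D (M + Q) ω' i := h
      obtain ⟨k, hk⟩ := Nat.exists_eq_add_of_le (show n ≤ M + Q by omega)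
      rw [hk] at h'
      have e1 : ∀ ω, F.D n ω i = F.D (n + k) ω i / 2 ^ k := by
        intro ω
        show ⌊2 ^ n * F.d ω i⌋ = ⌊2 ^ (n + k) * F.d ω i⌋ / 2 ^ k
        have e2 := Int.floor_div_natCast (2 ^ (n + k) * F.d ω i) (2 ^ k)
        push_cast at e2
        rw [← e2, pow_add _ n k]
        congr 1
        field_simp
      show F.D n ω i = F.D n ω' i
      rw [e1, e1, h']
  pos := by
    intro ω₁ ω₂ ω₃ a b c h hL
    simp only [Prod.mk.injEq] at h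
    obtain ⟨h1, h2, h3, h4⟩ := h
    have h5 := pos_hop F i hJ hn hN h2 h3 h4 hL
    refine h5.trans ?_
    have h6 : (2 : ℝ) ^ (Q - n) ≤ 2 ^ r := pow_le_pow_right₀ (by norm_num) (by omega)
    have h7 : ((2 ^ r + 6 : ℕ) : ℝ) ≤ K := by exact_mod_cast hK
    push_cast at h7
    linarith
  bu := by
    intro ω₁ ω₂ a b h
    simp only [Prod.mk.injEq] at h
    obtain ⟨h1, h2, h3, h4⟩ := h
    exact (bL_le F i hn h3).trans (pow_le_pow_right₀ (by norm_num) hr)
  sep := sep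

end fam

end Pool.NS95
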